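import Mathlib
import Pool.Agent.W516.K3.Defs

/-!
# Statements for the project on de Rham-Betti classes of K3 surfaces with multiplication by an
imaginary quadratic field (prefix KU)
-/

namespace Pool.Agent.W516.KU

open Module TensorProduct Pool.Agent.W516.K3

section Basic

variable {F T : Type} [Field F] [AddCommGroup T] [Module F T]

/-- The basic elements of the unitary Lie algebra: `t ↦ h(v, t) u - h(u, t) v` for the hermitian
form `h`. -/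
def xx (b : T →ₗ[F] T →ₗ[F] F) (J : Module.End F T) (u v : T) : Module.End F T :=
  wdg b u v + wdg b (J u) (J v)

/-- `T` with the symmetric form `b` has the structure of a hermitian space: `J` is an isometry with
square `-1`. -/
structure Herm (b : T →ₗ[F] T →ₗ[F] F) (J : Module.End F T) : Prop where
  symm : ∀ u v, b u v = b v u
  nondeg : ∀ u, (∀ v, b u v = 0) → u = 0
  sq : J * J = -1
  isom : ∀ u v, b (J u) (J v) = b u v

/-- `e`, `f` span (over `F(J)`) a hyperbolic plane of the hermitian space. -/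
structure HypJ (b : T →ₗ[F] T →ₗ[F] F) (J : Module.End F T) (e f : T) : Prop where
  ee : b e e = 0
  ff : b f f = 0
  ef : b e f = 1
  eJf : b e (J f) = 0

/-- The orthogonal complement of the hyperbolic plane. -/
def T0 (b : T →ₗ[F] T →ₗ[F] F) (J : Module.End F T) (e f : T) : Submodule F T :=
  LinearMap.ker (b e) ⊓ LinearMap.ker (b f) ⊓ LinearMap.ker (b (J e)) ⊓ LinearMap.ker (b (J f))

end Basic

section Real

variable {T : Type} [AddCommGroup T] [Module ℝ T]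

/-- The Lie algebras of interest. -/
structure GoodJ (b : T →ₗ[ℝ] T →ₗ[ℝ] ℝ) (J : Module.End ℝ T) (g : Submodule ℝ (Module.End ℝ T)) :
    Prop where
  herm : Herm b J
  witt : ∀ W : Submodule ℝ T, (∀ u ∈ W, ∀ v ∈ W, b u v = 0) → finrank ℝ W ≤ 2
  skew : ∀ x ∈ g, ∀ u v, b (x u) v + b u (x v) = 0
  commJ : ∀ x ∈ g, x * J = J * x
  bracket : ∀ x ∈ g, ∀ y ∈ g, x * y - y * x ∈ g
  irr : ∀ U : Submodule ℝ T, (∀ x ∈ g, ∀ u ∈ U, x u ∈ U) → U = ⊥ ∨ U = ⊤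
  comm : ∀ P : Module.End ℝ T, (∀ x ∈ g, x * P = P * x) → ∃ c d : ℝ, P = c • 1 + d • J
  trace : ∀ x ∈ g, (∀ y ∈ g, LinearMap.trace ℝ T (x * y) = 0) → x = 0
  hyp : ∀ y z : Module.End ℝ T, y + z ∈ g → y * z = z * y → IsHyp y → NoRe z → y ∈ g

end Real

/-! ### The existence of a hyperbolic element -/

/-- `S_PF` with a condition on symmetric forms only. -/
def S_PF : Prop :=
  ∀ (T : Type) [AddCommGroup T] [Module ℝ T] [FiniteDimensional ℝ T]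
    (b : T →ₗ[ℝ] T →ₗ[ℝ] ℝ), (∀ u v, b u v = b v u) →
    ∀ (ι : Type) [Fintype ι] (x : ι → Module.End ℝ T)
    (Φ : (T →ₗ[ℝ] T →ₗ[ℝ] ℝ) →ₗ[ℝ] (T →ₗ[ℝ] T →ₗ[ℝ] ℝ)),
    (∀ g u v, Φ g u v = ∑ i, g (x i u) (x i v)) →
    ∀ (s : ℝ) (κ : (T →ₗ[ℝ] T →ₗ[ℝ] ℝ) →ₗ[ℝ] ℝ), Φ b = s • b → κ b = 1 →
    (∀ g, κ (Φ g) = s * κ g) →
    (∀ (g : T →ₗ[ℝ] T →ₗ[ℝ] ℝ) (θ : ℝ), (∀ u v, g u v = g v u) → s ≤ θ → Φ g = θ • g →
      ∃ c : ℝ, g = c • b) →
    (∀ v, 0 ≤ b v v) ∨ (∀ v, b v v ≤ 0)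

/-- `S_CAS` for Lie algebras commuting with a complex structure. -/
def S_CAS : Prop :=
  ∀ (T : Type) [AddCommGroup T] [Module ℝ T] [FiniteDimensional ℝ T]
    (b : T →ₗ[ℝ] T →ₗ[ℝ] ℝ) (J : Module.End ℝ T) (g : Submodule ℝ (Module.End ℝ T)),
    GoodJ b J g → b ≠ 0 → (∀ x ∈ g, NoRe x) → (∃ x ∈ g, x ≠ 0) →
    ∃ (ι : Type) (_ : Fintype ι) (x : ι → Module.End ℝ T)
      (Φ : (T →ₗ[ℝ] T →ₗ[ℝ] ℝ) →ₗ[ℝ] (T →ₗ[ℝ] T →ₗ[ℝ] ℝ)) (s : ℝ)
      (κ : (T →ₗ[ℝ] T →ₗ[ℝ] ℝ) →ₗ[ℝ] ℝ),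
      (∀ g u v, Φ g u v = ∑ i, g (x i u) (x i v)) ∧ Φ b = s • b ∧ κ b = 1 ∧
      (∀ g, κ (Φ g) = s * κ g) ∧
      (∀ (g : T →ₗ[ℝ] T →ₗ[ℝ] ℝ) (θ : ℝ), (∀ u v, g u v = g v u) → s ≤ θ → Φ g = θ • g →
        ∃ c : ℝ, g = c • b)

/-- The normal form of a hyperbolic element commuting with `J`. -/
def S_NORM : Prop :=
  ∀ (T : Type) [AddCommGroup T] [Module ℝ T] [FiniteDimensional ℝ T]
    (b : T →ₗ[ℝ] T →ₗ[ℝ] ℝ) (J : Module.End ℝ T), Herm b J →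
    (∀ W : Submodule ℝ T, (∀ u ∈ W, ∀ v ∈ W, b u v = 0) → finrank ℝ W ≤ 2) →
    ∀ y : Module.End ℝ T, (∀ u v, b (y u) v + b u (y v) = 0) → y * J = J * y → IsHyp y → y ≠ 0 →
    ∃ (e f : T) (a : ℝ), a ≠ 0 ∧ HypJ b J e f ∧ y = a • xx b J e f

/-! ### The grading -/

/-- The decomposition of an element of the Lie algebra under `ad h`, `h = xx e f`. -/
def S_GR : Prop :=
  ∀ (T : Type) [AddCommGroup T] [Module ℝ T] [FiniteDimensional ℝ T]
    (b : T →ₗ[ℝ] T →ₗ[ℝ] ℝ) (J : Module.End ℝ T) (g : Submodule ℝ (Module.End ℝ T)),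
    GoodJ b J g → ∀ e f : T, HypJ b J e f → xx b J e f ∈ g → ∀ x ∈ g,
    ∃ (t s : T) (α β : ℝ) (z : Module.End ℝ T), t ∈ T0 b J e f ∧ s ∈ T0 b J e f ∧
      xx b J e t ∈ g ∧ xx b J f s ∈ g ∧ α • xx b J e (J e) ∈ g ∧ β • xx b J f (J f) ∈ g ∧ z ∈ g ∧
      z * xx b J e f = xx b J e f * z ∧
      x = α • xx b J e (J e) + xx b J e t + z + xx b J f s + β • xx b J f (J f)

/-- The highest weight element and the lowest weight element. -/
def S_DU : Prop :=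
  ∀ (T : Type) [AddCommGroup T] [Module ℝ T] [FiniteDimensional ℝ T]
    (b : T →ₗ[ℝ] T →ₗ[ℝ] ℝ) (J : Module.End ℝ T) (g : Submodule ℝ (Module.End ℝ T)),
    GoodJ b J g → ∀ e f : T, HypJ b J e f → xx b J e f ∈ g →
    (xx b J e (J e) ∈ g ↔ xx b J f (J f) ∈ g)

/-- The case of a root of length two: all root vectors are in the Lie algebra. -/
def S_UA : Prop :=
  ∀ (T : Type) [AddCommGroup T] [Module ℝ T] [FiniteDimensional ℝ T]
    (b : T →ₗ[ℝ] T →ₗ[ℝ] ℝ) (J : Module.End ℝ T) (g : Submodule ℝ (Module.End ℝ T)),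
    GoodJ b J g → 5 ≤ finrank ℝ T → ∀ e f : T, HypJ b J e f → xx b J e f ∈ g →
    xx b J e (J e) ∈ g → xx b J f (J f) ∈ g →
    ∀ t ∈ T0 b J e f, xx b J e t ∈ g ∧ xx b J f t ∈ g

/-- The root vectors generate. -/
def S_UE : Prop :=
  ∀ (T : Type) [AddCommGroup T] [Module ℝ T] [FiniteDimensional ℝ T]
    (b : T →ₗ[ℝ] T →ₗ[ℝ] ℝ) (J : Module.End ℝ T) (g : Submodule ℝ (Module.End ℝ T)),
    GoodJ b J g → ∀ e f : T, HypJ b J e f → xx b J e f ∈ g →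
    xx b J e (J e) ∈ g → xx b J f (J f) ∈ g →
    (∀ t ∈ T0 b J e f, xx b J e t ∈ g ∧ xx b J f t ∈ g) →
    ∀ x : Module.End ℝ T, (∀ u v, b (x u) v + b u (x v) = 0) → x * J = J * x →
      LinearMap.trace ℝ T (x * J) = 0 → x ∈ g

/-- The case without a root of length two: there is a real structure. -/
def S_UB : Prop :=
  ∀ (T : Type) [AddCommGroup T] [Module ℝ T] [FiniteDimensional ℝ T]
    (b : T →ₗ[ℝ] T →ₗ[ℝ] ℝ) (J : Module.End ℝ T) (g : Submodule ℝ (Module.End ℝ T)),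
    GoodJ b J g → 5 ≤ finrank ℝ T → ∀ e f : T, HypJ b J e f → xx b J e f ∈ g →
    xx b J e (J e) ∉ g → xx b J f (J f) ∉ g →
    ∃ V₀ : Submodule ℝ T, IsCompl V₀ (V₀.map J) ∧ (∀ u ∈ V₀, ∀ v ∈ V₀, b u (J v) = 0) ∧
      ∀ x ∈ g, ∃ c : ℝ, ∀ v ∈ V₀, (x - c • J) v ∈ V₀

/-! ### Clifford algebras -/

section Cliff

variable {F T H : Type} [Field F] [AddCommGroup T] [Module F T] [AddCommGroup H] [Module F H]

/-- The commutator of two vectors in the Clifford algebra: four times the lift of `wdg b u v`. -/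
def sp (γ : T →ₗ[F] Module.End F H) (u v : T) : Module.End F H := γ u * γ v - γ v * γ u

/-- Four times the lift of `xx b J u v`. -/
def sJ (γ : T →ₗ[F] Module.End F H) (J : Module.End F T) (u v : T) : Module.End F H :=
  sp γ u v + sp γ (J u) (J v)

/-- `Z` is a lift of `x`. -/
def IsLift (γ : T →ₗ[F] Module.End F H) (Z : Module.End F H) (x : Module.End F T) : Prop :=
  ∀ t, Z * γ t - γ t * Z = γ (x t)

end Cliff

/-- The special unitary Lie algebra has an additional commuting endomorphism. -/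
def S_CLA : Prop :=
  ∀ (T H : Type) [AddCommGroup T] [Module ℝ T] [FiniteDimensional ℝ T] [Nontrivial T]
    [AddCommGroup H] [Module ℝ H] [FiniteDimensional ℝ H] [Nontrivial H]
    (b : T →ₗ[ℝ] T →ₗ[ℝ] ℝ) (J : Module.End ℝ T) (γ : T →ₗ[ℝ] Module.End ℝ H), Herm b J →
    (∀ u v, γ u * γ v + γ v * γ u = (2 * b u v) • (1 : Module.End ℝ H)) →
    ∃ P : Module.End ℝ H,
      (∀ (Z : Module.End ℝ H) (x : Module.End ℝ T), IsLift γ Z x →
        (∀ u v, b (x u) v + b u (x v) = 0) → x * J = J * x → LinearMap.trace ℝ T (x * J) = 0 →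
        Z * P = P * Z) ∧
      ¬ ∀ u v, sJ γ J u v * P = P * sJ γ J u v

/-- The same for the orthogonal Lie algebra of a real form of even dimension, and `J`. -/
def S_CLB : Prop :=
  ∀ (T H : Type) [AddCommGroup T] [Module ℝ T] [FiniteDimensional ℝ T] [Nontrivial T]
    [AddCommGroup H] [Module ℝ H] [FiniteDimensional ℝ H] [Nontrivial H]
    (b : T →ₗ[ℝ] T →ₗ[ℝ] ℝ) (J : Module.End ℝ T) (γ : T →ₗ[ℝ] Module.End ℝ H), Herm b J →
    (∀ u v, γ u * γ v + γ v * γ u = (2 * b u v) • (1 : Module.End ℝ H)) →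
    ∀ V₀ : Submodule ℝ T, IsCompl V₀ (V₀.map J) → (∀ u ∈ V₀, ∀ v ∈ V₀, b u (J v) = 0) →
    Even (finrank ℝ V₀) →
    ∃ P : Module.End ℝ H,
      (∀ (Z : Module.End ℝ H) (x : Module.End ℝ T), IsLift γ Z x →
        (∀ u v, b (x u) v + b u (x v) = 0) → x * J = J * x →
        (∃ c : ℝ, ∀ v ∈ V₀, (x - c • J) v ∈ V₀) → Z * P = P * Z) ∧
      ¬ ∀ u v, sJ γ J u v * P = P * sJ γ J u v

/-- The stable subspaces. -/
def S_IRR : Prop :=
  ∀ (F T H : Type) [Field F] [CharZero F] [AddCommGroup T] [Module F T] [FiniteDimensional F T]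
    [AddCommGroup H] [Module F H] [FiniteDimensional F H] [Nontrivial H]
    (b : T →ₗ[F] T →ₗ[F] F) (J : Module.End F T) (γ : T →ₗ[F] Module.End F H) (i : F)
    (S : Set (Module.End F H × Module.End F T)), Herm b J → i * i = -1 → 5 ≤ finrank F T →
    (∀ u v, γ u * γ v + γ v * γ u = (2 * b u v) • (1 : Module.End F H)) →
    (∀ p ∈ S, IsLift γ p.1 p.2) → (∀ p ∈ S, ∀ u v, b (p.2 u) v + b u (p.2 v) = 0) →
    (∀ u v, sJ γ J u v ∈ Algebra.adjoin F {Z | ∃ p ∈ S, p.1 = Z}) →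
    ∀ U : Submodule F T, (∀ p ∈ S, ∀ u ∈ U, p.2 u ∈ U) →
      U = ⊥ ∨ U = ⊤ ∨ U = LinearMap.ker (J - i • 1) ∨ U = LinearMap.ker (J + i • 1)

/-- From the complex numbers to the real numbers. -/
def S_DESC : Prop :=
  ∀ (T : Type) [AddCommGroup T] [Module ℝ T] [FiniteDimensional ℝ T] (J : Module.End ℝ T)
    (S : Set (Module.End ℝ T)), J * J = -1 →
    (∀ U : Submodule ℂ (ℂ ⊗[ℝ] T), (∀ x ∈ S, ∀ u ∈ U, x.baseChange ℂ u ∈ U) →
      U = ⊥ ∨ U = ⊤ ∨ U = LinearMap.ker (J.baseChange ℂ - Complex.I • 1) ∨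
        U = LinearMap.ker (J.baseChange ℂ + Complex.I • 1)) →
    (∀ U : Submodule ℝ T, (∀ x ∈ S, ∀ u ∈ U, x u ∈ U) → U = ⊥ ∨ U = ⊤) ∧
    (∀ P : Module.End ℝ T, (∀ x ∈ S, x * P = P * x) → ∃ c d : ℝ, P = c • 1 + d • J)

/-- The extension of the coefficients in a generated algebra. -/
def S_ADJ : Prop :=
  ∀ (k L H : Type) [Field k] [Field L] [Algebra k L] [AddCommGroup H] [Module k H]
    (S : Set (Module.End k H)) (a : Module.End k H), a ∈ Algebra.adjoin k S →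
    a.baseChange L ∈ Algebra.adjoin L {Z | ∃ Z₀ ∈ S, Z = Z₀.baseChange L}

end Pool.Agent.W516.KU
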