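import Mathlib
import Pool.Agent.W516.KU.Defs
import Pool.Agent.W32.DK.IRRL

/-!
# Extension of the base field
-/

set_option autoImplicit false

namespace Pool.Agent.W516.KU

open Module TensorProduct Pool.Agent.W516.K3 Pool.Agent.W32.DK

section

variable {k L T H : Type} [Field k] [Field L] [Algebra k L]
  [AddCommGroup T] [Module k T] [AddCommGroup H] [Module k H]

/-- `d • [u, v] + [δ u, δ v]`. -/
def sd (γ : T →ₗ[k] Module.End k H) (δ : Module.End k T) (d : k) (u v : T) : Module.End k H :=
  d • sp γ u v + sp γ (δ u) (δ v)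

theorem bc_mul (f g : Module.End k H) :
    (f * g).baseChange L = f.baseChange L * g.baseChange L := LinearMap.baseChange_comp _ _

theorem bc_one : (1 : Module.End k H).baseChange L = 1 := LinearMap.baseChange_id

theorem bc_smul (c : k) (f : Module.End k H) :
    (c • f).baseChange L = (algebraMap k L c) • f.baseChange L := by
  rw [LinearMap.baseChange_smul, algebraMap_smul]

theorem bc_sub (f g : Module.End k H) :
    (f - g).baseChange L = f.baseChange L - g.baseChange L := LinearMap.baseChange_sub _ _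

theorem gg_cl (b : T →ₗ[k] T →ₗ[k] k) (γ : T →ₗ[k] Module.End k H)
    (hcl : ∀ u v, γ u * γ v + γ v * γ u = (2 * b u v) • (1 : Module.End k H)) (u v : L ⊗[k] T) :
    gg L γ u * gg L γ v + gg L γ v * gg L γ u =
      (2 * bb L b u v) • (1 : Module.End L (L ⊗[k] H)) := by
  induction u using TensorProduct.induction_on with
  | zero => simp
  | add x y hx hy =>
    rw [map_add, add_mul, mul_add, map_add, LinearMap.add_apply, mul_add, add_smul, ← hx, ← hy]
    abel
  | tmul a t =>
    induction v using TensorProduct.induction_on with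
    | zero => simp
    | add x y hx hy =>
      rw [map_add, add_mul, mul_add, map_add, mul_add, add_smul, ← hx, ← hy]
      abel
    | tmul a' t' =>
      rw [gg_tmul, gg_tmul, bb_tmul, smul_mul_smul_comm, smul_mul_smul_comm, ← bc_mul, ← bc_mul,
        mul_comm a' a, ← smul_add, ← LinearMap.baseChange_add, hcl]
      rw [LinearMap.baseChange_smul]
      rw [bc_one, ← algebraMap_smul L (2 * b t t') (1 : Module.End L (L ⊗[k] H)), smul_smul]
      congr 1
      rw [Algebra.smul_def, map_mul, map_ofNat]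
      ring

theorem gg_lift (γ : T →ₗ[k] Module.End k H) {Z : Module.End k H} {x : Module.End k T}
    (h : IsLift γ Z x) : IsLift (gg L γ) (Z.baseChange L) (x.baseChange L) := by
  intro t
  have hc : ∀ t, Z * γ t = γ (x t) + γ t * Z := fun t => sub_eq_iff_eq_add.1 (h t)
  have key : Z.baseChange L * gg L γ t =
      gg L γ (x.baseChange L t) + gg L γ t * Z.baseChange L := by
    induction t using TensorProduct.induction_on with
    | zero => rw [map_zero, map_zero, map_zero, mul_zero, zero_mul, add_zero]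
    | add x y hx hy =>
      rw [map_add, mul_add, add_mul, map_add, map_add, hx, hy]
      abel
    | tmul a t =>
      rw [LinearMap.baseChange_tmul, gg_tmul, gg_tmul, mul_smul_comm, smul_mul_assoc, ← bc_mul,
        ← bc_mul, ← smul_add, ← LinearMap.baseChange_add, hc]
  have h2 := sub_eq_iff_eq_add (G := Module.End L (L ⊗[k] H)).2 key
  exact h2

theorem bb_skew (b : T →ₗ[k] T →ₗ[k] k) {x : Module.End k T}
    (h : ∀ u v, b (x u) v + b u (x v) = 0) (u v : L ⊗[k] T) :
    bb L b (x.baseChange L u) v + bb L b u (x.baseChange L v) = 0 := by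
  induction u using TensorProduct.induction_on with
  | zero => simp
  | add x y hx hy =>
    rw [map_add, map_add, map_add, LinearMap.add_apply, LinearMap.add_apply]
    linear_combination hx + hy
  | tmul a t =>
    induction v using TensorProduct.induction_on with
    | zero => simp
    | add x y hx hy =>
      rw [map_add, map_add, map_add]
      linear_combination hx + hy
    | tmul a' t' =>
      rw [LinearMap.baseChange_tmul, LinearMap.baseChange_tmul, bb_tmul, bb_tmul, ← add_smul,
        h, zero_smul]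

theorem sp_add_left (γ : T →ₗ[k] Module.End k H) (u u' v : T) :
    sp γ (u + u') v = sp γ u v + sp γ u' v := by
  simp only [sp, map_add, add_mul, mul_add]
  abel

theorem sp_add_right (γ : T →ₗ[k] Module.End k H) (u v v' : T) :
    sp γ u (v + v') = sp γ u v + sp γ u v' := by
  simp only [sp, map_add, add_mul, mul_add]
  abel

theorem sp_smul_left (γ : T →ₗ[k] Module.End k H) (c : k) (u v : T) :
    sp γ (c • u) v = c • sp γ u v := by
  simp only [sp, map_smul, smul_mul_assoc, mul_smul_comm, smul_sub]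

theorem sp_smul_right (γ : T →ₗ[k] Module.End k H) (c : k) (u v : T) :
    sp γ u (c • v) = c • sp γ u v := by
  simp only [sp, map_smul, smul_mul_assoc, mul_smul_comm, smul_sub]

theorem sp_zero_left (γ : T →ₗ[k] Module.End k H) (v : T) : sp γ 0 v = 0 := by
  simp only [sp, map_zero, zero_mul, mul_zero, sub_zero]

theorem sp_zero_right (γ : T →ₗ[k] Module.End k H) (v : T) : sp γ v 0 = 0 := by
  simp only [sp, map_zero, zero_mul, mul_zero, sub_zero]

theorem sp_tmul (γ : T →ₗ[k] Module.End k H) (a a' : L) (t t' : T) :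
    sp (gg L γ) (a ⊗ₜ[k] t) (a' ⊗ₜ[k] t') = (a * a') • (sp γ t t').baseChange L := by
  rw [sp, sp, gg_tmul, gg_tmul, smul_mul_smul_comm, smul_mul_smul_comm, ← bc_mul, ← bc_mul,
    mul_comm a' a, bc_sub]
  exact (smul_sub (A := Module.End L (L ⊗[k] H)) (a * a') ((γ t * γ t').baseChange L)
    ((γ t' * γ t).baseChange L)).symm

theorem sd_tmul (γ : T →ₗ[k] Module.End k H) (δ : Module.End k T) (d : k) (a a' : L) (t t' : T) :
    sd (gg L γ) (δ.baseChange L) (algebraMap k L d) (a ⊗ₜ[k] t) (a' ⊗ₜ[k] t') =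
      (a * a') • (sd γ δ d t t').baseChange L := by
  rw [sd, sd, LinearMap.baseChange_tmul, LinearMap.baseChange_tmul, sp_tmul, sp_tmul,
    LinearMap.baseChange_add, bc_smul, smul_add, smul_comm]

theorem sd_add_left (γ : T →ₗ[k] Module.End k H) (δ : Module.End k T) (d : k) (u u' v : T) :
    sd γ δ d (u + u') v = sd γ δ d u v + sd γ δ d u' v := by
  simp only [sd, map_add, sp_add_left, smul_add]
  abel

theorem sd_add_right (γ : T →ₗ[k] Module.End k H) (δ : Module.End k T) (d : k) (u v v' : T) :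
    sd γ δ d u (v + v') = sd γ δ d u v + sd γ δ d u v' := by
  simp only [sd, map_add, sp_add_right, smul_add]
  abel

theorem sd_zero_left (γ : T →ₗ[k] Module.End k H) (δ : Module.End k T) (d : k) (v : T) :
    sd γ δ d 0 v = 0 := by
  simp only [sd, map_zero, sp_zero_left, smul_zero, add_zero]

theorem sd_zero_right (γ : T →ₗ[k] Module.End k H) (δ : Module.End k T) (d : k) (v : T) :
    sd γ δ d v 0 = 0 := by
  simp only [sd, map_zero, sp_zero_right, smul_zero, add_zero]

/-- Membership in generated algebras after the extension. -/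
theorem sd_mem (hA : S_ADJ) (γ : T →ₗ[k] Module.End k H) (δ : Module.End k T) (d : k)
    (S : Set (Module.End k H)) (h : ∀ u v, sd γ δ d u v ∈ Algebra.adjoin k S) (u v : L ⊗[k] T) :
    sd (gg L γ) (δ.baseChange L) (algebraMap k L d) u v ∈
      Algebra.adjoin L {Z | ∃ Z₀ ∈ S, Z = Z₀.baseChange L} := by
  induction u using TensorProduct.induction_on with
  | zero => rw [sd_zero_left]; exact zero_mem _
  | add x y hx hy => rw [sd_add_left]; exact add_mem hx hy
  | tmul a t =>
    induction v using TensorProduct.induction_on with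
    | zero => rw [sd_zero_right]; exact zero_mem _
    | add x y hx hy => rw [sd_add_right]; exact add_mem hx hy
    | tmul a' t' =>
      rw [sd_tmul]
      exact Subalgebra.smul_mem _ (hA k L H S _ (h t t')) _

/-- The hermitian structure after the extension. -/
theorem herm_bc [FiniteDimensional k T] (b : T →ₗ[k] T →ₗ[k] k) (J : Module.End k T)
    (h : Herm b J) : Herm (bb L b) (J.baseChange L) := by
  refine ⟨bb_symm b h.symm, bb_nondeg b h.symm h.nondeg, ?_, ?_⟩
  · rw [← bc_mul, h.sq]
    rw [show (-1 : Module.End k T) = (-1 : k) • 1 by rw [neg_one_smul], bc_smul, bc_one, map_neg,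
      map_one]
    exact neg_one_smul L (1 : Module.End L (L ⊗[k] T))
  · intro u v
    induction u using TensorProduct.induction_on with
    | zero => simp
    | add x y hx hy => rw [map_add, map_add, map_add, LinearMap.add_apply, LinearMap.add_apply, hx, hy]
    | tmul a t =>
      induction v using TensorProduct.induction_on with
      | zero => simp
      | add x y hx hy => rw [map_add, map_add, map_add, hx, hy]
      | tmul a' t' =>
        rw [LinearMap.baseChange_tmul, LinearMap.baseChange_tmul, bb_tmul, bb_tmul, h.isom]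

end

/-- The irreducibility over the complex numbers and over the real numbers. -/
theorem irr_real (hI : S_IRR) (hD : S_DESC) (hA : S_ADJ)
    {T H : Type} [AddCommGroup T] [Module ℝ T] [FiniteDimensional ℝ T]
    [AddCommGroup H] [Module ℝ H] [FiniteDimensional ℝ H] [Nontrivial H]
    (b : T →ₗ[ℝ] T →ₗ[ℝ] ℝ) (J : Module.End ℝ T) (γ : T →ₗ[ℝ] Module.End ℝ H)
    (S : Set (Module.End ℝ H × Module.End ℝ T)) (hb : Herm b J) (h5 : 5 ≤ finrank ℝ T)
    (hcl : ∀ u v, γ u * γ v + γ v * γ u = (2 * b u v) • (1 : Module.End ℝ H))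
    (hl : ∀ p ∈ S, IsLift γ p.1 p.2) (hs : ∀ p ∈ S, ∀ u v, b (p.2 u) v + b u (p.2 v) = 0)
    (had : ∀ u v, sd γ J 1 u v ∈ Algebra.adjoin ℝ {Z | ∃ p ∈ S, p.1 = Z}) :
    (∀ U : Submodule ℝ T, (∀ p ∈ S, ∀ u ∈ U, p.2 u ∈ U) → U = ⊥ ∨ U = ⊤) ∧
    (∀ P : Module.End ℝ T, (∀ p ∈ S, p.2 * P = P * p.2) → ∃ c d : ℝ, P = c • 1 + d • J) := by
  have : Nontrivial (ℂ ⊗[ℝ] H) := by
    apply Module.nontrivial_of_finrank_pos (R := ℂ)
    rw [Module.finrank_baseChange]
    exact Module.finrank_pos
  have h1 := hD T J {x | ∃ p ∈ S, x = p.2} hb.sq ?_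
  · refine ⟨fun U hU => h1.1 U ?_, fun P hP => h1.2 P ?_⟩
    · rintro x ⟨p, hp, rfl⟩ u hu
      exact hU p hp u hu
    · rintro x ⟨p, hp, rfl⟩
      exact hP p hp
  · intro U hU
    refine hI ℂ (ℂ ⊗[ℝ] T) (ℂ ⊗[ℝ] H) (bb ℂ b) (J.baseChange ℂ) (gg ℂ γ) Complex.I
      {q | ∃ p ∈ S, q = (p.1.baseChange ℂ, p.2.baseChange ℂ)} (herm_bc b J hb) Complex.I_mul_I
      (by rw [Module.finrank_baseChange]; exact h5) (gg_cl b γ hcl) ?_ ?_ ?_ U ?_
    · rintro q ⟨p, hp, rfl⟩
      exact gg_lift γ (hl p hp)
    · rintro q ⟨p, hp, rfl⟩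
      exact bb_skew b (hs p hp)
    · intro u v
      have h2 := sd_mem (L := ℂ) hA γ J 1 {Z | ∃ p ∈ S, p.1 = Z} had u v
      rw [map_one, sd, one_smul] at h2
      have h3 : {Z : Module.End ℂ (ℂ ⊗[ℝ] H) | ∃ Z₀ ∈ {Z | ∃ p ∈ S, p.1 = Z},
          Z = Z₀.baseChange ℂ} = {Z | ∃ p ∈ {q : Module.End ℂ (ℂ ⊗[ℝ] H) ×
            Module.End ℂ (ℂ ⊗[ℝ] T) | ∃ p ∈ S, q = (p.1.baseChange ℂ, p.2.baseChange ℂ)},
              p.1 = Z} := by
        ext Z
        constructor
        · rintro ⟨_, ⟨p, hp, rfl⟩, rfl⟩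
          exact ⟨_, ⟨p, hp, rfl⟩, rfl⟩
        · rintro ⟨_, ⟨p, hp, rfl⟩, rfl⟩
          exact ⟨_, ⟨p, hp, rfl⟩, rfl⟩
      rw [h3] at h2
      exact h2
    · rintro q ⟨p, hp, rfl⟩ u hu
      exact hU p.2 ⟨p, hp, rfl⟩ u hu

end Pool.Agent.W516.KU
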