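import Mathlib
import Pool.Agent.W516.KU.Defs

/-!
# The alternative for the real Lie algebra
-/

set_option autoImplicit false

namespace Pool.Agent.W516.KU

open Module TensorProduct Pool.Agent.W516.K3

variable {T : Type} [AddCommGroup T] [Module ℝ T] [FiniteDimensional ℝ T]
  {b : T →ₗ[ℝ] T →ₗ[ℝ] ℝ} {J : Module.End ℝ T} {g : Submodule ℝ (Module.End ℝ T)}

/-- There is an element which has an eigenvalue with a nonzero real part. -/
theorem hyp_exists (hPF : S_PF) (hCAS : S_CAS) (hgood : GoodJ b J g) (hpos : ∃ v, 0 < b v v)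
    (hneg : ∃ v, b v v < 0) : ∃ x ∈ g, ¬ NoRe x := by
  by_contra hcon
  push Not at hcon
  obtain ⟨v, hv⟩ := hpos
  obtain ⟨w, hw⟩ := hneg
  have hb : b ≠ 0 := by
    intro h
    rw [h] at hv
    simp at hv
  have hex : ∃ x ∈ g, x ≠ 0 := by
    by_contra hno
    push Not at hno
    have hU := hgood.irr (Submodule.span ℝ {v}) (by
      intro x hx u _
      rw [hno x hx]
      simp)
    rcases hU with h | h
    · rw [Submodule.span_singleton_eq_bot] at h
      rw [h] at hv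
      simp at hv
    · have : w ∈ Submodule.span ℝ {v} := by
        rw [h]
        trivial
      obtain ⟨c, hc⟩ := Submodule.mem_span_singleton.1 this
      rw [← hc] at hw
      simp only [map_smul, LinearMap.smul_apply, smul_eq_mul] at hw
      nlinarith [mul_self_nonneg c, mul_nonneg (mul_self_nonneg c) hv.le]
  obtain ⟨ι, hι, x, Φ, s, κ, h1, h2, h3, h4, h5⟩ := hCAS T b J g hgood hb hcon hex
  rcases hPF T b hgood.herm.symm ι x Φ h1 s κ h2 h3 h4 h5 with h | h
  · linarith [h w]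
  · linarith [h v]

/-- The alternative. -/
theorem real_alt (hPF : S_PF) (hCAS : S_CAS) (hSPLIT : S_SPLIT) (hNORM : KU.S_NORM)
    (hDU : S_DU) (hUA : S_UA) (hUE : S_UE) (hUB : S_UB) (hg : GoodJ b J g)
    (h5 : 5 ≤ finrank ℝ T) (hpos : ∃ v, 0 < b v v) (hneg : ∃ v, b v v < 0) :
    (∀ x : Module.End ℝ T, (∀ u v, b (x u) v + b u (x v) = 0) → x * J = J * x →
      LinearMap.trace ℝ T (x * J) = 0 → x ∈ g) ∨
    (∃ V₀ : Submodule ℝ T, IsCompl V₀ (V₀.map J) ∧ (∀ u ∈ V₀, ∀ v ∈ V₀, b u (J v) = 0) ∧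
      ∀ x ∈ g, ∃ c : ℝ, ∀ v ∈ V₀, (x - c • J) v ∈ V₀) := by
  obtain ⟨x0, hx0, hx0n⟩ := hyp_exists hPF hCAS hg hpos hneg
  obtain ⟨y, z, hyz, hcomm, hy, hz⟩ := hSPLIT T x0
  have hyg : y ∈ g := hg.hyp y z (hyz ▸ hx0) hcomm hy hz
  have hy0 : y ≠ 0 := by
    intro h
    rw [h, zero_add] at hyz
    exact hx0n (hyz ▸ hz)
  obtain ⟨e, f, a, ha, hH, hya⟩ := hNORM T b J hg.herm hg.witt y (hg.skew y hyg)
    (hg.commJ y hyg) hy hy0
  have hh : xx b J e f ∈ g := by
    have h1 : xx b J e f = a⁻¹ • y := by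
      rw [hya, smul_smul, inv_mul_cancel₀ ha, one_smul]
    rw [h1]
    exact g.smul_mem _ hyg
  by_cases hE : xx b J e (J e) ∈ g
  · left
    have hF := (hDU T b J g hg e f hH hh).1 hE
    exact hUE T b J g hg e f hH hh hE hF (hUA T b J g hg h5 e f hH hh hE hF)
  · right
    have hF : xx b J f (J f) ∉ g := fun h => hE ((hDU T b J g hg e f hH hh).2 h)
    exact hUB T b J g hg h5 e f hH hh hE hF

end Pool.Agent.W516.KU
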