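import Mathlib
import Pool.Agent.W516.K3.Main2
import Pool.Agent.W516.KU.Ext
import Pool.Agent.W516.KU.Real
import Pool.Agent.W516.Cartan

/-!
# De Rham-Betti forms: multiplication by an imaginary quadratic field
-/

set_option linter.unusedSectionVars false

namespace Pool.Agent.W516.KU

open Module TensorProduct Pool.Agent.H204R3.SP Pool.Agent.H204R3.GP Pool.Agent.W516.DR
  Pool.Agent.W516.KC Pool.Agent.W516.K3 Pool.Agent.W32.DK

noncomputable section

variable {k K : Type} [Field k] [Field K] [CharZero k] [CharZero K] [IsAlgClosed K] [Algebra k K]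
  [Algebra k ℂ] [Algebra K ℂ] [IsScalarTower k K ℂ] [Algebra k ℝ] [IsScalarTower k ℝ ℂ]
  {T : Type} [AddCommGroup T] [Module k T] [FiniteDimensional k T]
  {H : Type} [AddCommGroup H] [Module k H] [FiniteDimensional k H] [Nontrivial H]
  {ι ν : Type} [Fintype ι] [DecidableEq ι] [Fintype ν] [DecidableEq ν]
  (ξ : Basis ι ℂ (T →ₗ[k] ℂ)) (θ : Basis ν ℂ (H →ₗ[k] ℂ))
  (b : T →ₗ[k] T →ₗ[k] k) (γ : T →ₗ[k] Module.End k H) (δ : Module.End k T) (d : k)

/-- The logarithmic derivatives commute with the endomorphisms. -/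
theorem Y0_comm (hδ : IsDeRhamBettiEnd K (ξ : ι → (T →ₗ[k] ℂ)) δ) (D : Derivation K ℂ ℂ)
    (lam : ℂ →ₗ[k] k) : Y0 ξ D lam * δ = δ * Y0 ξ D lam := by
  obtain ⟨a, ha⟩ := hδ
  have h1 : ∀ (z : ℂ ⊗[k] T) (i : ι), etaL ξ i (δ.baseChange ℂ z) =
      ∑ j, algebraMap K ℂ (a i j) * etaL ξ j z := by
    intro z i
    induction z with
    | zero => simp only [map_zero, mul_zero, Finset.sum_const_zero]
    | add z z' h1 h2 => simp only [map_add, h1, h2, mul_add, Finset.sum_add_distrib]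
    | tmul c t =>
      rw [LinearMap.baseChange_tmul, etaL_tmul, ha, Finset.mul_sum]
      refine Finset.sum_congr rfl fun j _ => ?_
      rw [etaL_tmul]
      ring
  have h2 : ∀ t : T, XX ξ D ((1 : ℂ) ⊗ₜ[k] (δ t)) =
      δ.baseChange ℂ (XX ξ D ((1 : ℂ) ⊗ₜ[k] t)) := by
    intro t
    apply ext_etaL ξ
    intro i
    rw [h1, etaL_XX_one, ha, map_sum]
    refine Finset.sum_congr rfl fun j _ => ?_
    rw [etaL_XX_one, Derivation.leibniz, Derivation.map_algebraMap, smul_zero, add_zero,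
      smul_eq_mul]
  refine LinearMap.ext fun t => ?_
  rw [Module.End.mul_apply, Module.End.mul_apply, Y0_apply, Y0_apply, h2, cmp_baseChange']

/-- An element that commutes with all de Rham-Betti endomorphisms is generated by the components
of the logarithmic derivatives. -/
theorem mem_of_comm (hss : DeRhamBettiSemisimple K (θ : ν → (H →ₗ[k] ℂ))) (a : Module.End k H)
    (hend : ∀ P : Module.End k H, IsDeRhamBettiEnd K (θ : ν → (H →ₗ[k] ℂ)) P → P * a = a * P) :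
    a ∈ Algebra.adjoin k
      {Z | ∃ (D : Derivation K ℂ ℂ) (lam : ℂ →ₗ[k] k), Z = Y0 θ D lam} := by
  have h1 : CommComm (zz K θ) a := by
    intro P hP
    have h0 : ∀ (D : Derivation K ℂ ℂ) (lam : ℂ →ₗ[k] k),
        X0 θ (1 : ℂ) D lam * P = P * X0 θ (1 : ℂ) D lam := by
      intro D lam
      rw [Y0_eq]
      exact hP _ (Submodule.subset_span ⟨D, lam, rfl⟩)
    exact (hend P (end_of_comm θ (τ := (1 : ℂ)) P h0)).symm
  have h2 := double_comm (zz K θ) (semi_zz θ hss) h1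
  have h3 : Algebra.adjoin k ((zz K θ : Submodule k (Module.End k H)) : Set (Module.End k H)) ≤
      Algebra.adjoin k {Z | ∃ (D : Derivation K ℂ ℂ) (lam : ℂ →ₗ[k] k), Z = Y0 θ D lam} := by
    rw [Algebra.adjoin_le_iff]
    intro X hX
    change X ∈ Submodule.span k _ at hX
    exact Algebra.span_le_adjoin k _ hX
  exact h3 h2

/-- What commutes with the generators commutes with the generated algebra. -/
theorem comm_adjoin {F V : Type} [Field F] [AddCommGroup V] [Module F V]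
    {S : Set (Module.End F V)} {P a : Module.End F V} (h : ∀ Z ∈ S, Z * P = P * Z)
    (ha : a ∈ Algebra.adjoin F S) : a * P = P * a := by
  induction ha using Algebra.adjoin_induction with
  | mem x hx => exact h x hx
  | algebraMap r => exact Algebra.commutes r P
  | add x y _ _ h1 h2 => rw [add_mul, mul_add, h1, h2]
  | mul x y _ _ h1 h2 => rw [mul_assoc, h2, ← mul_assoc, h1, mul_assoc]

/-- The complex structure. -/
def jj : Module.End ℝ (ℝ ⊗[k] T) := (Real.sqrt (algebraMap k ℝ d))⁻¹ • δ.baseChange ℝ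

theorem jj_apply (u : ℝ ⊗[k] T) :
    jj δ d u = (Real.sqrt (algebraMap k ℝ d))⁻¹ • δ.baseChange ℝ u := rfl

theorem dd_apply (hδδ : δ * δ = -(d • 1)) (u : ℝ ⊗[k] T) :
    δ.baseChange ℝ (δ.baseChange ℝ u) = -((algebraMap k ℝ d) • u) := by
  induction u with
  | zero => simp only [map_zero, smul_zero, neg_zero]
  | add x y hx hy => rw [map_add, map_add, hx, hy, smul_add, neg_add]
  | tmul a t =>
    rw [LinearMap.baseChange_tmul, LinearMap.baseChange_tmul, ← Module.End.mul_apply, hδδ,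
      LinearMap.neg_apply, LinearMap.smul_apply, Module.End.one_apply, TensorProduct.tmul_neg,
      TensorProduct.tmul_smul, algebraMap_smul]

theorem bx_delta (hδb : ∀ u v, b (δ u) v = -b u (δ v)) (u v : ℝ ⊗[k] T) :
    bx ℝ b (δ.baseChange ℝ u) v = -bx ℝ b u (δ.baseChange ℝ v) := by
  have h1 := bb_skew (L := ℝ) b (x := δ) (fun u v => by rw [hδb]; ring) u v
  change bx ℝ b (δ.baseChange ℝ u) v + bx ℝ b u (δ.baseChange ℝ v) = 0 at h1
  linarith

theorem sqrt_sq (hd : 0 < algebraMap k ℝ d) :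
    (Real.sqrt (algebraMap k ℝ d))⁻¹ * (Real.sqrt (algebraMap k ℝ d))⁻¹ =
      (algebraMap k ℝ d)⁻¹ := by
  rw [← mul_inv, Real.mul_self_sqrt hd.le]

theorem herm_jj (hsym : ∀ u v, b u v = b v u) (hnd : ∀ u, (∀ v, b u v = 0) → u = 0)
    (hd : 0 < algebraMap k ℝ d) (hδδ : δ * δ = -(d • 1)) (hδb : ∀ u v, b (δ u) v = -b u (δ v)) :
    Herm (bx ℝ b) (jj δ d) := by
  refine ⟨bx_symm b ℝ hsym, bx_nondeg b ℝ hnd, ?_, ?_⟩
  · refine LinearMap.ext fun u => ?_
    rw [Module.End.mul_apply, jj_apply, jj_apply, map_smul, smul_smul, sqrt_sq d hd,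
      dd_apply δ d hδδ, smul_neg, smul_smul, inv_mul_cancel₀ hd.ne', one_smul]
    rfl
  · intro u v
    rw [jj_apply, jj_apply, map_smul, map_smul, LinearMap.smul_apply, smul_smul, sqrt_sq d hd,
      bx_delta b δ hδb, dd_apply δ d hδδ, map_neg, neg_neg, map_smul, smul_smul,
      inv_mul_cancel₀ hd.ne', one_smul]

variable (hsym : ∀ u v, b u v = b v u) (hnd : ∀ u, (∀ v, b u v = 0) → u = 0)
  (hd : 0 < algebraMap k ℝ d) (hδδ : δ * δ = -(d • 1)) (hδb : ∀ u v, b (δ u) v = -b u (δ v))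
  (hδ : IsDeRhamBettiEnd K (ξ : ι → (T →ₗ[k] ℂ)) δ)
  (hcl : ∀ u v, γ u * γ v + γ v * γ u = (2 * b u v) • (1 : Module.End k H))
  (hγ : IsDRBAction K (ξ : ι → (T →ₗ[k] ℂ)) (θ : ν → (H →ₗ[k] ℂ)) γ)
  (hss : DeRhamBettiSemisimple K (θ : ν → (H →ₗ[k] ℂ)))
  (hend : ∀ P : Module.End k H, IsDeRhamBettiEnd K (θ : ν → (H →ₗ[k] ℂ)) P →
    ∀ u v, P * sd γ δ d u v = sd γ δ d u v * P)

include hcl hγ hδ in
/-- The form `b (δ u) v` is a de Rham-Betti class. -/
theorem drb_bd : IsDRBForm K (ξ : ι → (T →ₗ[k] ℂ)) (one2 (b ∘ₗ δ)) := by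
  rw [drb0_iff ξ (Module.finBasis k T)]
  intro D lam
  rw [kills_one2]
  intro u v
  have h1 := skew_Y0 ξ θ b γ hcl hγ D lam (δ u) v
  have h2 := congrArg (fun P : Module.End k T => P u) (Y0_comm (K := K) ξ δ hδ D lam)
  simp only [Module.End.mul_apply] at h2
  rw [h2] at h1
  exact h1

theorem bx_comp (u v : ℝ ⊗[k] T) : bx ℝ (b ∘ₗ δ) u v = bx ℝ b (δ.baseChange ℝ u) v := by
  have h : bx ℝ (b ∘ₗ δ) = bx ℝ b ∘ₗ δ.baseChange ℝ := by
    apply bilin_ext
    intro u v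
    rw [LinearMap.comp_apply, LinearMap.baseChange_tmul, bx_one, bx_one]
    rfl
  rw [h]
  rfl

include hnd hcl hγ hδ in
theorem gR_comm {x : Module.End ℝ (ℝ ⊗[k] T)} (hx : x ∈ gR (K := K) ξ) :
    x * jj δ d = jj δ d * x := by
  have h1 := hx _ _ (drb_bd (K := K) ξ θ b γ δ hδ hcl hγ)
  have h2 : bcm (Ω := ℝ) (Module.finBasis k T) (one2 (b ∘ₗ δ)) = one2 (bx ℝ (b ∘ₗ δ)) :=
    MultilinearMap.ext fun v => bcm_one2 (b ∘ₗ δ) _ v
  rw [h2, kills_one2] at h1
  refine LinearMap.ext fun u => ?_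
  rw [Module.End.mul_apply, Module.End.mul_apply, jj_apply, jj_apply, map_smul]
  congr 1
  rw [← sub_eq_zero]
  refine bx_nondeg b ℝ hnd _ fun v => ?_
  have h3 := h1 u v
  rw [bx_comp, bx_comp] at h3
  have h4 := gR_skew (K := K) ξ θ b γ hcl hγ hx (δ.baseChange ℝ u) v
  rw [map_sub, LinearMap.sub_apply]
  linarith

theorem sJ_eq (hd : 0 < algebraMap k ℝ d) (u v : ℝ ⊗[k] T) :
    sJ (gg ℝ γ) (jj δ d) u v =
      (algebraMap k ℝ d)⁻¹ • sd (gg ℝ γ) (δ.baseChange ℝ) (algebraMap k ℝ d) u v := by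
  rw [sJ, sd, jj_apply, jj_apply, sp_smul_left, sp_smul_right]
  refine LinearMap.ext fun w => ?_
  simp only [LinearMap.add_apply, LinearMap.smul_apply, smul_add, smul_smul]
  rw [inv_mul_cancel₀ hd.ne', one_smul, sqrt_sq d hd]

include hd hss hend in
/-- The elements `sJ u v` are in the algebra generated by the logarithmic derivatives. -/
theorem sJ_mem (hA : S_ADJ) (u v : ℝ ⊗[k] T) :
    sJ (gg ℝ γ) (jj δ d) u v ∈ Algebra.adjoin ℝ {Z : Module.End ℝ (ℝ ⊗[k] H) |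
      ∃ (D : Derivation K ℂ ℂ) (lam : ℂ →ₗ[k] k), Z = (Y0 θ D lam).baseChange ℝ} := by
  rw [sJ_eq γ δ d hd]
  have h1 := sd_mem (L := ℝ) hA γ δ d
    {Z | ∃ (D : Derivation K ℂ ℂ) (lam : ℂ →ₗ[k] k), Z = Y0 θ D lam}
    (fun u v => mem_of_comm (K := K) θ hss _ fun P hP => hend P hP u v) u v
  have h2 : {Z : Module.End ℝ (ℝ ⊗[k] H) | ∃ Z₀ ∈ {Z | ∃ (D : Derivation K ℂ ℂ)
      (lam : ℂ →ₗ[k] k), Z = Y0 θ D lam}, Z = Z₀.baseChange ℝ} =
      {Z | ∃ (D : Derivation K ℂ ℂ) (lam : ℂ →ₗ[k] k), Z = (Y0 θ D lam).baseChange ℝ} := by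
    ext Z
    constructor
    · rintro ⟨_, ⟨D, lam, rfl⟩, rfl⟩
      exact ⟨D, lam, rfl⟩
    · rintro ⟨D, lam, rfl⟩
      exact ⟨_, ⟨D, lam, rfl⟩, rfl⟩
  rw [h2] at h1
  exact Subalgebra.smul_mem _ h1 _

include hsym hnd hd hδδ hδb hδ hcl hγ hss hend in
/-- The real Lie algebra satisfies all conditions. -/
theorem goodJ (S1 : S_IRR) (S2 : S_DESC) (S3 : S_KILL) (hA : S_ADJ) (hn : 5 ≤ finrank k T)
    (hsig : WittTwo (bx ℝ b)) : GoodJ (bx ℝ b) (jj δ d) (gR (K := K) ξ) := by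
  have hH := herm_jj b δ d hsym hnd hd hδδ hδb
  have : Nontrivial (ℝ ⊗[k] H) := by
    apply Module.nontrivial_of_finrank_pos (R := ℝ)
    rw [Module.finrank_baseChange]
    exact Module.finrank_pos
  have h2 := irr_real S1 S2 hA (bx ℝ b) (jj δ d) (gg ℝ γ)
    {p | ∃ (D : Derivation K ℂ ℂ) (lam : ℂ →ₗ[k] k),
      p = ((Y0 θ D lam).baseChange ℝ, (Y0 ξ D lam).baseChange ℝ)} hH
    (by rw [Module.finrank_baseChange]; exact hn) (gg_cl b γ hcl)
    (by
      rintro p ⟨D, lam, rfl⟩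
      exact gg_lift γ (fun t => comm_gamma ξ θ γ hγ D lam t))
    (by
      rintro p ⟨D, lam, rfl⟩
      exact bb_skew b (skew_Y0 ξ θ b γ hcl hγ D lam))
    (by
      intro u v
      have h3 := sJ_mem (K := K) θ γ δ d hd hss hend hA u v
      have h4 : {Z : Module.End ℝ (ℝ ⊗[k] H) |
          ∃ (D : Derivation K ℂ ℂ) (lam : ℂ →ₗ[k] k), Z = (Y0 θ D lam).baseChange ℝ} =
          {Z | ∃ p ∈ {p : Module.End ℝ (ℝ ⊗[k] H) × Module.End ℝ (ℝ ⊗[k] T) |
            ∃ (D : Derivation K ℂ ℂ) (lam : ℂ →ₗ[k] k),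
              p = ((Y0 θ D lam).baseChange ℝ, (Y0 ξ D lam).baseChange ℝ)}, p.1 = Z} := by
        ext Z
        constructor
        · rintro ⟨D, lam, rfl⟩
          exact ⟨_, ⟨D, lam, rfl⟩, rfl⟩
        · rintro ⟨_, ⟨D, lam, rfl⟩, rfl⟩
          exact ⟨D, lam, rfl⟩
      rw [h4] at h3
      rw [sd, one_smul]
      exact h3)
  have hskew : ∀ x ∈ gR (K := K) ξ, ∀ u v, bx ℝ b (x u) v + bx ℝ b u (x v) = 0 :=
    fun x hx => gR_skew ξ θ b γ hcl hγ hx
  have hbr : ∀ x ∈ gR (K := K) ξ, ∀ y ∈ gR (K := K) ξ, x * y - y * x ∈ gR (K := K) ξ := by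
    intro x hx y hy κ _ _ φ hφ
    exact kills_bracket (hx κ φ hφ) (hy κ φ hφ)
  have hirr : ∀ U : Submodule ℝ (ℝ ⊗[k] T), (∀ x ∈ gR (K := K) ξ, ∀ u ∈ U, x u ∈ U) →
      U = ⊥ ∨ U = ⊤ := by
    intro U hU
    refine h2.1 U ?_
    rintro x ⟨D, lam, rfl⟩ u hu
    exact hU _ (Y0_mem ξ D lam) u hu
  have hcomm : ∀ P : Module.End ℝ (ℝ ⊗[k] T), (∀ x ∈ gR (K := K) ξ, x * P = P * x) →
      ∃ c e : ℝ, P = c • 1 + e • jj δ d := by
    intro P hP
    refine h2.2 P ?_
    rintro x ⟨D, lam, rfl⟩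
    exact hP _ (Y0_mem ξ D lam)
  have hnd' : ∀ u, (∀ v, bx ℝ b u v = 0) → u = 0 := bx_nondeg b ℝ hnd
  refine ⟨hH, hsig.2.2, hskew, fun x hx => gR_comm (K := K) ξ θ b γ δ d hnd hδ hcl hγ hx, hbr,
    hirr, hcomm, ?_, ?_⟩
  · intro x hx htr
    have h5 := central_of_trace (gR (K := K) ξ) (by
      intro U hU
      rcases hirr U hU with rfl | rfl
      · exact ⟨⊤, fun _ _ _ _ => trivial, isCompl_bot_top⟩
      · exact ⟨⊥, fun X _ u hu => by
          rw [Submodule.mem_bot] at hu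
          rw [hu, map_zero]
          exact Submodule.zero_mem _, isCompl_top_bot⟩) hbr hx htr
    obtain ⟨c, e, he⟩ := hcomm x h5
    obtain ⟨⟨v0, hv0⟩, -, -⟩ := hsig
    -- `c = 0`
    have hJsk : ∀ u v, bx ℝ b (jj δ d u) v = -bx ℝ b u (jj δ d v) := by
      intro u v
      have h6 := hH.isom (jj δ d u) v
      rw [← Module.End.mul_apply, hH.sq, LinearMap.neg_apply, Module.End.one_apply, map_neg,
        LinearMap.neg_apply] at h6
      linarith
    have hc : c = 0 := by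
      have h6 := hskew x hx v0 v0
      rw [he] at h6
      simp only [LinearMap.add_apply, LinearMap.smul_apply, Module.End.one_apply, map_add,
        map_smul, smul_eq_mul, hJsk] at h6
      have h7 : c * bx ℝ b v0 v0 = 0 := by linarith
      exact (mul_eq_zero.1 h7).resolve_right hv0.ne'
    have h6 := htr x hx
    rw [hc, zero_smul, zero_add] at he
    have h7 : x * x = (-(e * e)) • (1 : Module.End ℝ (ℝ ⊗[k] T)) := by
      rw [he]
      refine LinearMap.ext fun u => ?_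
      rw [Module.End.mul_apply, LinearMap.smul_apply, LinearMap.smul_apply, map_smul, smul_smul,
        ← Module.End.mul_apply, hH.sq, LinearMap.neg_apply, LinearMap.smul_apply,
        Module.End.one_apply, smul_neg, neg_smul]
    rw [h7, map_smul, LinearMap.trace_one, smul_eq_mul] at h6
    have h8 : (finrank ℝ (ℝ ⊗[k] T) : ℝ) ≠ 0 := by
      rw [Module.finrank_baseChange]
      have : finrank k T ≠ 0 := by omega
      exact_mod_cast this
    have h9 : e = 0 := by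
      have h10 := (mul_eq_zero.1 h6).resolve_right h8
      have h11 : e * e = 0 := by linarith
      exact mul_self_eq_zero.1 h11
    rw [he, h9, zero_smul]
  · intro y z hyz hc hy hz κ _ _ φ hφ
    exact S3 _ κ _ y z hc hy hz (hyz κ φ hφ)

include hsym hnd hd hδδ hδb hδ hcl hγ hss hend in
/-- All skew endomorphisms commuting with the complex structure are in the Lie algebra. -/
theorem mem_gR (S1 : S_IRR) (S2 : S_DESC) (S3 : S_KILL) (hA : S_ADJ) (hPF : S_PF) (hCAS : S_CAS)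
    (hSPLIT : S_SPLIT) (hNORM : KU.S_NORM) (hDU : S_DU) (hUA : S_UA) (hUE : S_UE) (hUB : S_UB)
    (hCLA : S_CLA) (hCLB : S_CLB) (hn : 5 ≤ finrank k T) (h4 : 4 ∣ finrank k T)
    (hsig : WittTwo (bx ℝ b)) (x : Module.End ℝ (ℝ ⊗[k] T))
    (hx : ∀ u v, bx ℝ b (x u) v + bx ℝ b u (x v) = 0) (hxJ : x * jj δ d = jj δ d * x) :
    x ∈ gR (K := K) ξ := by
  have hg := goodJ (K := K) ξ θ b γ δ d hsym hnd hd hδδ hδb hδ hcl hγ hss hend S1 S2 S3 hA hn hsig
  have : Nontrivial (ℝ ⊗[k] H) := by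
    apply Module.nontrivial_of_finrank_pos (R := ℝ)
    rw [Module.finrank_baseChange]
    exact Module.finrank_pos
  have hT5 : 5 ≤ finrank ℝ (ℝ ⊗[k] T) := by rw [Module.finrank_baseChange]; exact hn
  have : Nontrivial (ℝ ⊗[k] T) := Module.nontrivial_of_finrank_pos (R := ℝ) (by omega)
  have hlift : ∀ (D : Derivation K ℂ ℂ) (lam : ℂ →ₗ[k] k),
      IsLift (gg ℝ γ) ((Y0 θ D lam).baseChange ℝ) ((Y0 ξ D lam).baseChange ℝ) :=
    fun D lam => gg_lift γ (fun t => comm_gamma ξ θ γ hγ D lam t)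
  -- what commutes with the logarithmic derivatives commutes with `sJ`
  have hcomm : ∀ P : Module.End ℝ (ℝ ⊗[k] H), (∀ (D : Derivation K ℂ ℂ) (lam : ℂ →ₗ[k] k),
      (Y0 θ D lam).baseChange ℝ * P = P * (Y0 θ D lam).baseChange ℝ) →
      ∀ u v, sJ (gg ℝ γ) (jj δ d) u v * P = P * sJ (gg ℝ γ) (jj δ d) u v := by
    intro P hP u v
    refine comm_adjoin ?_ (sJ_mem (K := K) θ γ δ d hd hss hend hA u v)
    rintro Z ⟨D, lam, rfl⟩
    exact hP D lam
  rcases real_alt hPF hCAS hSPLIT hNORM hDU hUA hUE hUB hg hT5 hsig.1 hsig.2.1 with h | h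
  · -- the trace is not always zero
    obtain ⟨P, hP, hP'⟩ := hCLA (ℝ ⊗[k] T) (ℝ ⊗[k] H) (bx ℝ b) (jj δ d) (gg ℝ γ) hg.herm
      (gg_cl b γ hcl)
    have h1 : ∃ (D : Derivation K ℂ ℂ) (lam : ℂ →ₗ[k] k),
        LinearMap.trace ℝ (ℝ ⊗[k] T) ((Y0 ξ D lam).baseChange ℝ * jj δ d) ≠ 0 := by
      by_contra hcon
      push Not at hcon
      refine hP' (hcomm P fun D lam => ?_)
      exact hP _ _ (hlift D lam) (hg.skew _ (Y0_mem ξ D lam)) (hg.commJ _ (Y0_mem ξ D lam))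
        (hcon D lam)
    obtain ⟨D, lam, ht⟩ := h1
    set x₀ := (Y0 ξ D lam).baseChange ℝ with hx₀
    have hx₀g : x₀ ∈ gR (K := K) ξ := Y0_mem ξ D lam
    set c : ℝ := LinearMap.trace ℝ (ℝ ⊗[k] T) (x * jj δ d) /
      LinearMap.trace ℝ (ℝ ⊗[k] T) (x₀ * jj δ d) with hc
    have h2 : x - c • x₀ ∈ gR (K := K) ξ := by
      refine h _ ?_ ?_ ?_
      · intro u v
        have h3 := hx u v
        have h4 := hg.skew x₀ hx₀g u v
        simp only [LinearMap.sub_apply, LinearMap.smul_apply, map_sub, map_smul, smul_eq_mul]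
        linear_combination h3 - c * h4
      · refine LinearMap.ext fun u => ?_
        have h3 := congrArg (fun P : Module.End ℝ (ℝ ⊗[k] T) => P u) hxJ
        have h4 := congrArg (fun P : Module.End ℝ (ℝ ⊗[k] T) => P u) (hg.commJ x₀ hx₀g)
        simp only [Module.End.mul_apply] at h3 h4
        simp only [Module.End.mul_apply, LinearMap.sub_apply, LinearMap.smul_apply, map_sub,
          map_smul, h3, h4]
      · have h3 : (x - c • x₀) * jj δ d = x * jj δ d - c • (x₀ * jj δ d) := by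
          refine LinearMap.ext fun u => ?_
          simp only [Module.End.mul_apply, LinearMap.sub_apply, LinearMap.smul_apply]
        have h4 := (LinearMap.trace ℝ (ℝ ⊗[k] T)).map_sub (x * jj δ d) (c • (x₀ * jj δ d))
        have h5 := (LinearMap.trace ℝ (ℝ ⊗[k] T)).map_smul c (x₀ * jj δ d)
        rw [h3]
        refine h4.trans ?_
        rw [h5, smul_eq_mul, hc, div_mul_cancel₀ _ ht, sub_self]
    have h3 : x = (x - c • x₀) + c • x₀ := by
      refine LinearMap.ext fun u => ?_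
      simp only [LinearMap.add_apply, LinearMap.sub_apply, sub_add_cancel]
    rw [h3]
    exact Submodule.add_mem _ h2 (Submodule.smul_mem _ c hx₀g)
  · exfalso
    obtain ⟨V₀, hV, hV', hst⟩ := h
    have hev : Even (finrank ℝ V₀) := by
      have h1 := Submodule.finrank_add_eq_of_isCompl hV
      have h2 : finrank ℝ (V₀.map (jj δ d)) = finrank ℝ V₀ := by
        refine (Submodule.equivMapOfInjective (jj δ d) ?_ V₀).finrank_eq.symm
        rw [injective_iff_map_eq_zero]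
        intro u hu
        have h3 := congrArg (fun P : Module.End ℝ (ℝ ⊗[k] T) => P u) hg.herm.sq
        simp only [Module.End.mul_apply, hu, map_zero, LinearMap.neg_apply,
          Module.End.one_apply] at h3
        exact neg_eq_zero.1 h3.symm
      rw [h2, Module.finrank_baseChange] at h1
      obtain ⟨m, hm⟩ := h4
      exact ⟨m, by omega⟩
    obtain ⟨P, hP, hP'⟩ := hCLB (ℝ ⊗[k] T) (ℝ ⊗[k] H) (bx ℝ b) (jj δ d) (gg ℝ γ) hg.herm
      (gg_cl b γ hcl) V₀ hV hV' hev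
    refine hP' (hcomm P fun D lam => ?_)
    exact hP _ _ (hlift D lam) (hg.skew _ (Y0_mem ξ D lam)) (hg.commJ _ (Y0_mem ξ D lam))
      (hst _ (Y0_mem ξ D lam))

end

end Pool.Agent.W516.KU
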