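import Mathlib
import Pool.Agent.W516.K3.Defs
import Pool.Agent.W516.K3.Defs3

/-!
# Statements for the project KU: invariants of the unitary Lie algebra
-/

namespace Pool.Agent.W516.KU

open Module TensorProduct Pool.Agent.W516.K3

/-- The product of the values of the forms `B i` on the pairs of a partition of the variables into
pairs given by an equivalence. -/
def PairProdB {F T τ : Type} [Field F] [AddCommGroup T] [Module F T] (B : τ → (T →ₗ[F] T →ₗ[F] F))
    {κ : Type} [Fintype κ] (φ : MultilinearMap F (fun _ : κ => T) F) : Prop :=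
  ∃ (m : ℕ) (e : Fin m × Fin 2 ≃ κ) (s : Fin m → τ),
    ∀ v, φ v = ∏ l, B (s l) (v (e (l, 0))) (v (e (l, 1)))

/-- A product of values of the forms `B i` on pairs of variables and of coordinates of the other
variables. -/
def IsMonomialB {k T τ : Type} [Field k] [AddCommGroup T] [Module k T]
    (B : τ → (T →ₗ[k] T →ₗ[k] k)) {c : ℕ} {κ : Type} [Fintype κ] [DecidableEq κ]
    (φ : MultilinearMap k (fun _ : κ => (Fin c → k) × T) k) : Prop :=
  ∃ (m : ℕ) (s : Finset κ) (e : Fin m × Fin 2 ≃ {l : κ // l ∉ s}) (j : κ → Fin c)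
    (r : Fin m → τ),
    ∀ v, φ v = (∏ l, B (r l) (v (e (l, 0))).2 (v (e (l, 1))).2) * ∏ i ∈ s, (v i).1 (j i)

/-- If all partial evaluations are combinations of products of values of the `B i`, then the form
is a combination of monomials. -/
def S_TOTB : Prop :=
  ∀ (k T τ : Type) [Field k] [CharZero k] [AddCommGroup T] [Module k T] [FiniteDimensional k T]
    (B : τ → (T →ₗ[k] T →ₗ[k] k)) (c : ℕ) (κ : Type) [Fintype κ] [DecidableEq κ]
    (φ : MultilinearMap k (fun _ : κ => (Fin c → k) × T) k), 0 < c →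
    (∀ (A : Finset κ) (j : κ → Fin c) (ψ : MultilinearMap k (fun _ : {l : κ // l ∉ A} => T) k),
      IsPart φ A j ψ → ψ ∈ Submodule.span k {ψ' | PairProdB B ψ'}) →
    φ ∈ Submodule.span k {φ' | IsMonomialB B φ'}

/-- The first fundamental theorem for the general linear Lie algebra: multilinear functions of
vectors and covectors, in all degrees. -/
def S_GLF : Prop :=
  ∀ (F W : Type) [Field F] [CharZero F] [AddCommGroup W] [Module F W] [FiniteDimensional F W]
    (κ κ' : Type) [Fintype κ] [DecidableEq κ] [Fintype κ'] [DecidableEq κ']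
    (φ : MultilinearMap F (fun _ : κ => W)
      (MultilinearMap F (fun _ : κ' => Module.Dual F W) F)),
    (∀ (x : Module.End F W) (v : κ → W) (w : κ' → Module.Dual F W),
      ∑ j, φ (Function.update v j (x (v j))) w - ∑ l, φ v (Function.update w l ((w l) ∘ₗ x)) = 0) →
    φ ∈ Submodule.span F {ψ | ∃ e : κ ≃ κ', ∀ v w, ψ v w = ∏ j, w (e j) (v j)}

/-- The first fundamental theorem for the unitary Lie algebra in all degrees. -/
def S_UFFT : Prop :=
  ∀ (F T : Type) [Field F] [CharZero F] [AddCommGroup T] [Module F T] [FiniteDimensional F T]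
    (b : T →ₗ[F] T →ₗ[F] F) (δ : Module.End F T) (d : F), (∀ u v, b u v = b v u) →
    (∀ u, (∀ v, b u v = 0) → u = 0) → d ≠ 0 → δ * δ = -(d • 1) →
    (∀ u v, b (δ u) v = -b u (δ v)) →
    ∀ (κ : Type) [Fintype κ] [DecidableEq κ] (φ : MultilinearMap F (fun _ : κ => T) F),
    (∀ x : Module.End F T, (∀ u v, b (x u) v + b u (x v) = 0) → x * δ = δ * x → KillsM x φ) →
    φ ∈ Submodule.span F {ψ | PairProdB ![b, b ∘ₗ δ] ψ}

end Pool.Agent.W516.KU
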