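import Mathlib
import Pool.Agent.W516.K3.Total
import Pool.Agent.W516.KU.Main
import Pool.Agent.W516.KU.Defs2

/-!
# De Rham-Betti forms: multiplication by an imaginary quadratic field, the direct sum
-/

set_option linter.unusedSectionVars false

namespace Pool.Agent.W516.KU

open Module TensorProduct Pool.Agent.H204R3.SP Pool.Agent.H204R3.GP Pool.Agent.W516.DR
  Pool.Agent.W516.KC Pool.Agent.W516.K3 Pool.Agent.W32.DK

noncomputable section

variable {k K : Type} [Field k] [Field K] [CharZero k] [CharZero K] [IsAlgClosed K] [Algebra k K]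
  [Algebra k ℂ] [Algebra K ℂ] [IsScalarTower k K ℂ] [Algebra k ℝ] [IsScalarTower k ℝ ℂ]
  {T : Type} [AddCommGroup T] [Module k T] [FiniteDimensional k T]
  {H : Type} [AddCommGroup H] [Module k H] [FiniteDimensional k H] [Nontrivial H]
  {ι ν : Type} [Fintype ι] [DecidableEq ι] [Fintype ν] [DecidableEq ν]
  (ξ : Basis ι ℂ (T →ₗ[k] ℂ)) (θ : Basis ν ℂ (H →ₗ[k] ℂ))
  (b : T →ₗ[k] T →ₗ[k] k) (γ : T →ₗ[k] Module.End k H) (δ : Module.End k T) (d : k)
  (hsym : ∀ u v, b u v = b v u) (hnd : ∀ u, (∀ v, b u v = 0) → u = 0)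
  (hd : 0 < algebraMap k ℝ d) (hδδ : δ * δ = -(d • 1)) (hδb : ∀ u v, b (δ u) v = -b u (δ v))
  (hδ : IsDeRhamBettiEnd K (ξ : ι → (T →ₗ[k] ℂ)) δ)
  (hcl : ∀ u v, γ u * γ v + γ v * γ u = (2 * b u v) • (1 : Module.End k H))
  (hγ : IsDRBAction K (ξ : ι → (T →ₗ[k] ℂ)) (θ : ν → (H →ₗ[k] ℂ)) γ)
  (hss : DeRhamBettiSemisimple K (θ : ν → (H →ₗ[k] ℂ)))
  (hend : ∀ P : Module.End k H, IsDeRhamBettiEnd K (θ : ν → (H →ₗ[k] ℂ)) P →
    ∀ u v, P * sd γ δ d u v = sd γ δ d u v * P)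

include hsym hnd hd hδδ hδb hδ hcl hγ hss hend in
/-- All skew endomorphisms commuting with `δ` kill the de Rham-Betti forms. -/
theorem kills_of_skewJ (S1 : S_IRR) (S2 : S_DESC) (S3 : S_KILL) (hA : S_ADJ) (hPF : S_PF)
    (hCAS : S_CAS) (hSPLIT : S_SPLIT) (hNORM : KU.S_NORM) (hDU : S_DU) (hUA : S_UA) (hUE : S_UE)
    (hUB : S_UB) (hCLA : S_CLA) (hCLB : S_CLB) (hn : 5 ≤ finrank k T) (h4 : 4 ∣ finrank k T)
    (hsig : WittTwo (bx ℝ b)) {κ : Type} [Fintype κ] [DecidableEq κ]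
    (φ : MultilinearMap k (fun _ : κ => T) k) (hφ : IsDRBForm K (ξ : ι → (T →ₗ[k] ℂ)) φ)
    (x : Module.End k T) (hx : ∀ u v, b (x u) v + b u (x v) = 0) (hxδ : x * δ = δ * x) :
    Kills x φ := by
  have h1 := mem_gR (K := K) ξ θ b γ δ d hsym hnd hd hδδ hδb hδ hcl hγ hss hend S1 S2 S3 hA hPF
    hCAS hSPLIT hNORM hDU hUA hUE hUB hCLA hCLB hn h4 hsig (x.baseChange ℝ) (bb_skew b hx) (by
      refine LinearMap.ext fun u => ?_
      have h2 := congrArg (fun P : Module.End k T => P.baseChange ℝ) hxδ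
      simp only [bc_mul] at h2
      have h3 := congrArg (fun P : Module.End ℝ (ℝ ⊗[k] T) => P u) h2
      simp only [Module.End.mul_apply] at h3
      rw [Module.End.mul_apply, Module.End.mul_apply, jj_apply, jj_apply, map_smul, h3])
  have h2 := h1 κ φ hφ
  intro v
  have h3 := h2 (fun l => (1 : ℝ) ⊗ₜ[k] v l)
  have h4 : ∀ j, Function.update (fun l => (1 : ℝ) ⊗ₜ[k] v l) j
      ((x.baseChange ℝ) ((1 : ℝ) ⊗ₜ[k] v j)) =
      fun l => (1 : ℝ) ⊗ₜ[k] Function.update v j (x (v j)) l := by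
    intro j
    funext l
    by_cases hl : l = j
    · subst hl
      rw [Function.update_self, Function.update_self, LinearMap.baseChange_tmul]
    · rw [Function.update_of_ne hl, Function.update_of_ne hl]
  simp only [h4, bcm_one] at h3
  rw [← map_sum] at h3
  exact (map_eq_zero_iff _ (algebraMap k ℝ).injective).1 h3

include hsym hnd hd hδδ hδb hδ hcl hγ hss hend in
/-- The de Rham-Betti forms on the sum of a trivial object and of `T`. -/
theorem drb_totalJ (S1 : S_IRR) (S2 : S_DESC) (S3 : S_KILL) (hA : S_ADJ) (hPF : S_PF)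
    (hCAS : S_CAS) (hSPLIT : S_SPLIT) (hNORM : KU.S_NORM) (hDU : S_DU) (hUA : S_UA) (hUE : S_UE)
    (hUB : S_UB) (hCLA : S_CLA) (hCLB : S_CLB) (hTOTB : S_TOTB) (hUFFT : S_UFFT)
    (hn : 5 ≤ finrank k T) (h4 : 4 ∣ finrank k T)
    (hsig : WittTwo (bx ℝ b)) (c : ℕ) (hc : 0 < c) {κ : Type} [Fintype κ] [DecidableEq κ]
    (φ : MultilinearMap k (fun _ : κ => (Fin c → k) × T) k)
    (hφ : IsDRBForm K (perSum c (ξ : ι → (T →ₗ[k] ℂ))) φ) :
    φ ∈ Submodule.span k {ψ | IsMonomialB ![b, b ∘ₗ δ] ψ} := by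
  refine hTOTB k T (Fin 2) ![b, b ∘ₗ δ] c κ φ hc fun A j ψ hψ => ?_
  have hd0 : d ≠ 0 := by
    rintro rfl
    rw [map_zero] at hd
    exact lt_irrefl _ hd
  refine hUFFT k T b δ d hsym hnd hd0 hδδ hδb _ ψ fun x hx hxδ => ?_
  exact kills_of_skewJ (K := K) ξ θ b γ δ d hsym hnd hd hδδ hδb hδ hcl hγ hss hend S1 S2 S3 hA
    hPF hCAS hSPLIT hNORM hDU hUA hUE hUB hCLA hCLB hn h4 hsig ψ (part_drb _ φ hφ A j ψ hψ) x hx
    hxδ

end

end Pool.Agent.W516.KU
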