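import Mathlib
import Pool.Agent.W516.K3.Final
import Pool.Agent.W516.KU.Total
import Pool.Agent.W108.KU.PF
import Pool.Agent.W583.KU.CAS
import Pool.Agent.W688.KU.NORM
import Pool.Agent.W688.KU.DU
import Pool.Agent.W930.KU.GR
import Pool.Agent.W333.KU.UA
import Pool.Agent.W32.KU.UE
import Pool.Agent.W605.KU.UB
import Pool.Agent.W214.KU.CLA
import Pool.Agent.W21.KU.CLB
import Pool.Agent.W924.KU.IRR
import Pool.Agent.W839.KU.DESC
import Pool.Agent.W52.KU.ADJ
import Pool.Agent.W52.KU.TOTB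
import Pool.Agent.W372.KU.GLF
import Pool.Agent.W249.KU.UFFT

/-!
# De Rham-Betti forms: multiplication by an imaginary quadratic field, assembly
-/

set_option linter.unusedSectionVars false

namespace Pool.Agent.W516.KU

open Module TensorProduct Pool.Agent.H204R3.SP Pool.Agent.H204R3.GP Pool.Agent.W516.DR
  Pool.Agent.W516.KC Pool.Agent.W516.K3 Pool.Agent.W32.DK

theorem p_pf : S_PF := Pool.Agent.W108.KU.T_PF
theorem p_nt : S_NT := Pool.Agent.W440.DK.T_NT Pool.Agent.W655.DK.T_SUM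
theorem p_cas : S_CAS := Pool.Agent.W583.KU.T_CAS Pool.Agent.W655.DK.T_SUM p_nt
theorem p_split : S_SPLIT := Pool.Agent.W358.DK.T_SPLIT
theorem p_norm : KU.S_NORM := Pool.Agent.W688.KU.NORM.T_NORM Pool.W335.DK.T_NORM
theorem p_gr : S_GR := Pool.Agent.W930.KU.T_GR
theorem p_du : S_DU := Pool.Agent.W688.KU.DU.T_DU p_gr
theorem p_ua : S_UA := Pool.Agent.W333.KU.UA.T_UA p_gr
theorem p_ue : S_UE := Pool.Agent.W32.KU.T_UE
theorem p_ub : S_UB := Pool.Agent.W605.KU.T_UB p_gr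
theorem p_cla : S_CLA := Pool.Agent.W214.KU.T_CLA
theorem p_clb : S_CLB := Pool.Agent.W21.KU.T_CLB
theorem p_irr : KU.S_IRR := Pool.Agent.W924.KU.T_IRR
theorem p_desc : KU.S_DESC := Pool.Agent.W839.KU.T_DESC
theorem p_adj : S_ADJ := Pool.Agent.W52.KU.T_ADJ
theorem p_totb : S_TOTB := Pool.Agent.W52.KU.T_TOTB Pool.Agent.W358.DK.T_PART
theorem p_glf : S_GLF := Pool.Agent.W372.KU.T_GLF
theorem p_ufft : S_UFFT := Pool.Agent.W249.KU.T_UFFT p_glf
theorem p_kill : S_KILL := Pool.Agent.W440.DK.T_KILL Pool.Agent.W655.DK.T_SUM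

end Pool.Agent.W516.KU
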